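import Pool.Agent.helper38.OP.Spec

/-! # Project op (OMEGA+): row TYP (typical pairs) -/

set_option autoImplicit false

namespace Pool.Agent.OP

open Finset Real Pool.Agent.AT Pool.Agent.helper85.FC Pool.Agent.OM

lemma TYP_card (M N ρ : ℕ) (hρ : ρ < M) : ((range (M * N)).filter fun x => x % M = ρ).card = N := by
  have h : (range (M * N)).filter (fun x => x % M = ρ) = (range N).image fun k => ρ + M * k := by
    ext x
    simp only [Finset.mem_filter, Finset.mem_range, Finset.mem_image]
    constructor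
    · rintro ⟨h1, h2⟩
      refine ⟨x / M, ?_, ?_⟩
      · exact Nat.div_lt_of_lt_mul h1
      · rw [← h2]
        exact Nat.mod_add_div x M
    · rintro ⟨k, hk, rfl⟩
      refine ⟨?_, ?_⟩
      · calc ρ + M * k < M + M * k := by omega
          _ = M * (k + 1) := by ring
          _ ≤ M * N := Nat.mul_le_mul_left _ hk
      · rw [Nat.add_mul_mod_self_left, Nat.mod_eq_of_lt hρ]
  rw [h, Finset.card_image_of_injective _ ?_, Finset.card_range]
  intro k k' hk
  have hM : 0 < M := by omega
  simp only at hk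
  exact Nat.eq_of_mul_eq_mul_left hM (by omega)

lemma TYP_key (M N : ℕ) (η : ℝ) (hM : 1 ≤ M) (c g : ℕ → ℝ) (hc : ∀ x, 0 ≤ c x) (hcM : ∀ x, c x = c (x % M))
    (hg : ∀ ρ < M, η * N ≤ ∑ x ∈ range (M * N) with x % M = ρ, g x) :
    η * ∑ x ∈ range (M * N), c x ≤ ∑ x ∈ range (M * N), c x * g x := by
  have hmap : ∀ x ∈ range (M * N), x % M ∈ range M := fun x _ =>
    Finset.mem_range.2 (Nat.mod_lt _ (by omega))
  rw [← Finset.sum_fiberwise_of_maps_to hmap (fun x => c x * g x),
    ← Finset.sum_fiberwise_of_maps_to hmap c, Finset.mul_sum]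
  refine Finset.sum_le_sum fun ρ hρ => ?_
  have hρ' := Finset.mem_range.1 hρ
  have h1 : ∑ x ∈ range (M * N) with x % M = ρ, c x = N * c ρ := by
    have : ∀ x ∈ (range (M * N)).filter (fun x => x % M = ρ), c x = c ρ := by
      intro x hx
      rw [hcM x, (Finset.mem_filter.1 hx).2]
    rw [Finset.sum_congr rfl this, Finset.sum_const, TYP_card M N ρ hρ', nsmul_eq_mul]
  have h2 : ∑ x ∈ range (M * N) with x % M = ρ, c x * g x = c ρ * ∑ x ∈ range (M * N) with x % M = ρ, g x := by
    rw [Finset.mul_sum]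
    refine Finset.sum_congr rfl fun x hx => ?_
    rw [hcM x, (Finset.mem_filter.1 hx).2]
  rw [h1, h2]
  calc η * (N * c ρ) = c ρ * (η * N) := by ring
    _ ≤ c ρ * ∑ x ∈ range (M * N) with x % M = ρ, g x := mul_le_mul_of_nonneg_left (hg ρ hρ') (hc ρ)

lemma TYP_sq (L : ℕ) (S : ℕ → ℝ) : ∑ i ∈ range L, S i * ∑ j ∈ range L, (if j < i then S j else 0) =
    ((∑ i ∈ range L, S i) ^ 2 - ∑ i ∈ range L, S i ^ 2) / 2 := by
  have h1 : (∑ i ∈ range L, S i) ^ 2 = ∑ i ∈ range L, ∑ j ∈ range L, S i * S j := by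
    rw [sq, Finset.sum_mul_sum]
  have h2 : ∀ i ∈ range L, ∑ j ∈ range L, S i * S j =
      S i * ∑ j ∈ range L, (if j < i then S j else 0) + (S i ^ 2 + ∑ j ∈ range L, (if i < j then S i * S j else 0)) := by
    intro i hi
    have h3 : S i ^ 2 = ∑ j ∈ range L, (if j = i then S i * S j else 0) := by
      rw [Finset.sum_ite_eq' (range L) i, if_pos hi, sq]
    rw [h3, Finset.mul_sum, ← Finset.sum_add_distrib, ← Finset.sum_add_distrib]
    refine Finset.sum_congr rfl fun j _ => ?_
    rcases lt_trichotomy j i with h | h | h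
    · rw [if_pos h, if_neg h.ne, if_neg (by omega)]
      ring
    · subst h
      simp
    · rw [if_neg (by omega), if_neg (by omega), if_pos h]
      ring
  have h4 : ∑ i ∈ range L, ∑ j ∈ range L, (if i < j then S i * S j else 0) =
      ∑ i ∈ range L, S i * ∑ j ∈ range L, (if j < i then S j else 0) := by
    rw [Finset.sum_comm]
    refine Finset.sum_congr rfl fun i _ => ?_
    rw [Finset.mul_sum]
    refine Finset.sum_congr rfl fun j _ => ?_
    split_ifs with h
    · ring
    · ring
  rw [h1, Finset.sum_congr rfl h2, Finset.sum_add_distrib, Finset.sum_add_distrib, h4]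
  ring

theorem TYP : TYP_stmt := by
  intro L M N η hM hη0 hη1 f hf c hc hcM
  set Y := M * N with hY
  let S : ℕ → ℝ := fun i => ∑ x ∈ range Y, c (i, x)
  have hS0 : ∀ i, 0 ≤ S i := fun i => Finset.sum_nonneg fun x _ => (hc _).1
  have hSY : ∀ i, S i ≤ (M : ℝ) * N := by
    intro i
    calc S i ≤ ∑ _x ∈ range Y, (1 : ℝ) := Finset.sum_le_sum fun x _ => (hc _).2
      _ = (M : ℝ) * N := by rw [Finset.sum_const, Finset.card_range, hY]; ring
  have hsum : ∑ p ∈ VV L Y, c p = ∑ i ∈ range L, S i := by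
    unfold VV
    rw [Finset.sum_product]
  have hR : ∑ i ∈ range L, η * (S i * ∑ j ∈ range L, (if j < i then S j else 0)) ≤
      ∑ p ∈ VV L Y, ∑ p' ∈ VV L Y with p'.1 < p.1, c p * c p' * f p p' := by
    conv_rhs => rw [show VV L Y = range L ×ˢ range Y from rfl, Finset.sum_product]
    refine Finset.sum_le_sum fun i hi => ?_
    have hi' := Finset.mem_range.1 hi
    have e1 : ∑ x ∈ range Y, ∑ p' ∈ (range L ×ˢ range Y).filter (fun p' => p'.1 < (i, x).1), c (i, x) * c p' * f (i, x) p' =
        ∑ j ∈ range L, ∑ y ∈ range Y, (if j < i then c (j, y) * ∑ x ∈ range Y, c (i, x) * f (i, x) (j, y) else 0) := by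
      calc ∑ x ∈ range Y, ∑ p' ∈ (range L ×ˢ range Y).filter (fun p' => p'.1 < (i, x).1), c (i, x) * c p' * f (i, x) p'
          = ∑ x ∈ range Y, ∑ p' ∈ range L ×ˢ range Y, (if p'.1 < i then c (i, x) * c p' * f (i, x) p' else 0) := by
            refine Finset.sum_congr rfl fun x _ => ?_
            rw [Finset.sum_filter]
        _ = ∑ p' ∈ range L ×ˢ range Y, ∑ x ∈ range Y, (if p'.1 < i then c (i, x) * c p' * f (i, x) p' else 0) :=
            Finset.sum_comm
        _ = ∑ j ∈ range L, ∑ y ∈ range Y, ∑ x ∈ range Y, (if j < i then c (i, x) * c (j, y) * f (i, x) (j, y) else 0) := by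
            rw [Finset.sum_product]
        _ = _ := by
            refine Finset.sum_congr rfl fun j _ => Finset.sum_congr rfl fun y _ => ?_
            split_ifs with h
            · rw [Finset.mul_sum]
              refine Finset.sum_congr rfl fun x _ => ?_
              ring
            · simp
    rw [e1]
    have e2 : η * (S i * ∑ j ∈ range L, (if j < i then S j else 0)) =
        ∑ j ∈ range L, ∑ y ∈ range Y, (if j < i then c (j, y) * (η * S i) else 0) := by
      rw [← mul_assoc, Finset.mul_sum]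
      refine Finset.sum_congr rfl fun j _ => ?_
      split_ifs with h
      · rw [← Finset.sum_mul]
        ring
      · simp
    rw [e2]
    refine Finset.sum_le_sum fun j hj => Finset.sum_le_sum fun y hy => ?_
    split_ifs with h
    · refine mul_le_mul_of_nonneg_left ?_ (hc _).1
      exact TYP_key M N η hM (fun x => c (i, x)) (fun x => f (i, x) (j, y)) (fun x => (hc _).1)
        (fun x => hcM i x) (fun ρ hρ => hf i hi' j h ρ hρ y (Finset.mem_range.1 hy))
    · exact le_rfl
  refine le_trans ?_ hR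
  rw [← Finset.mul_sum, TYP_sq, hsum]
  have hsq : ∑ i ∈ range L, S i ^ 2 ≤ L * ((M : ℝ) * N) ^ 2 := by
    calc ∑ i ∈ range L, S i ^ 2 ≤ ∑ _i ∈ range L, ((M : ℝ) * N) ^ 2 :=
          Finset.sum_le_sum fun i _ => pow_le_pow_left₀ (hS0 i) (hSY i) 2
      _ = L * ((M : ℝ) * N) ^ 2 := by rw [Finset.sum_const, Finset.card_range, nsmul_eq_mul]
  have := mul_le_mul_of_nonneg_left hsq hη0.le
  nlinarith [this]

end Pool.Agent.OP
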